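import Mathlib

open Nat.Partrec (Code)
open Nat.Partrec.Code (eval evaln)
open Filter

namespace Pool.Agent.Results.MP_9ab454_lc.ConformNotRE

/-!
# A conform Blum measure with a complexity class that is not recursively enumerable

A Blum measure `(φ, Φ)` is conform if all its nonempty complexity classes (with recursive bounds)
have recursively isomorphic (one-one equivalent) index sets.  We build a conform Blum measure for
which the class `Φ(0)` of the bound `t = 0` is not recursively enumerable.

Construction.  Odd indices are special programs: tables for the finitely supported functions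
vanishing at `0` (cost `0`), and programs for the constant functions `a + 1`, whose cost at `x` is
`0` as long as the `a`-th code has not been seen to halt on input `0` within `x` steps and `1`
afterwards.  Even indices are all codes, with the usual step counting cost, which is at least `1`.
Then `Φ(0)` consists of the tables and of the constants `a + 1` with `a` not in the halting set, so
it is not r.e.; and every class contains all the tables, from which one gets a one-one reduction of
any index set to any other.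
-/

/-- `φ` is an acceptable Goedel numbering: the universal function `(i, x) ↦ φ i x` is
recursive (as a function that need not be total), and every binary recursive `ψ` (not nec. total)
is uniformly translated into `φ` by a total recursive function. -/
structure IsAcceptable (φ : ℕ → ℕ →. ℕ) : Prop where
  universal : Partrec₂ φ
  smn : ∀ ψ : ℕ → ℕ →. ℕ, Partrec₂ ψ → ∃ g : ℕ → ℕ, Computable g ∧ ∀ i, φ (g i) = ψ i

/-- `(φ, Φ)` is a Blum measure: `φ` is an acceptable numbering, each `Φ i` is a recursive function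
(not nec. total) with the same domain as `φ i`, and the predicate `Φ i x = y` of `(i, x, y)` is
recursive. -/
structure IsBlumMeasure (φ Φ : ℕ → ℕ →. ℕ) : Prop where
  acceptable : IsAcceptable φ
  partrec : ∀ i, Partrec (Φ i)
  dom_iff : ∀ i x, (Φ i x).Dom ↔ (φ i x).Dom
  graph : ComputablePred fun p : ℕ × ℕ × ℕ => p.2.2 ∈ Φ p.1 p.2.1

/-- The complexity class `Φ(t)`: all total functions `φ i` with `Φ i x ≤ t x` for almost all `x`. -/
def complexityClass (φ Φ : ℕ → ℕ →. ℕ) (t : ℕ → ℕ) : Set (ℕ →. ℕ) :=
  {f | ∃ i, φ i = f ∧ (∀ x, (f x).Dom) ∧ ∀ᶠ x in atTop, ∃ y ∈ Φ i x, y ≤ t x}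

/-- The index set `{i | φ i ∈ Φ(t)}` of the class `Φ(t)`. -/
def indexSet (φ Φ : ℕ → ℕ →. ℕ) (t : ℕ → ℕ) : Set ℕ := {i | φ i ∈ complexityClass φ Φ t}

/-- The class `C` is recursively enumerable: it is empty or of the form `{φ (g n) | n ∈ ℕ}` with a
total recursive function `g`. -/
def IsRE (φ : ℕ → ℕ →. ℕ) (C : Set (ℕ →. ℕ)) : Prop :=
  C = ∅ ∨ ∃ g : ℕ → ℕ, Computable g ∧ C = Set.range fun n => φ (g n)

/-- Conformity: any two nonempty complexity classes with recursive bounds have one-one equivalent
index sets (`OneOneEquiv` is Mathlib's relation of mutual one-one reducibility). -/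
def IsConform (φ Φ : ℕ → ℕ →. ℕ) : Prop :=
  ∀ t₁ t₂ : ℕ → ℕ, Computable t₁ → Computable t₂ →
    (complexityClass φ Φ t₁).Nonempty → (complexityClass φ Φ t₂).Nonempty →
    OneOneEquiv (fun i => i ∈ indexSet φ Φ t₁) (fun i => i ∈ indexSet φ Φ t₂)

/-- value of the special program `m` at `x`. -/
def sval (m x : ℕ) : ℕ :=
  if m.unpair.1 = 0 then
    (if x = 0 then 0 else (Denumerable.ofNat (List ℕ) m.unpair.2).getD x 0)
  else m.unpair.1

/-- cost of the special program `m` at `x`. -/
def scost (m x : ℕ) : ℕ :=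
  if m.unpair.1 = 0 then 0
  else if (evaln x (Denumerable.ofNat Code (m.unpair.1 - 1)) 0).isSome = true then 1 else 0

/-- value of program `j` at `y` provided its cost is at most `b`. -/
def val (j b y : ℕ) : Option ℕ :=
  bif j.bodd then (if scost j.div2 y ≤ b then some (sval j.div2 y) else none)
  else evaln b (Denumerable.ofNat Code j.div2) y

/-- the numbering. -/
def num (j : ℕ) : ℕ →. ℕ := fun y => Nat.rfindOpt fun b => val j b y

/-- the cost functions. -/
def cost (j : ℕ) : ℕ →. ℕ := fun y => Nat.rfind ((fun b => (val j b y).isSome : ℕ → Bool) : ℕ →. Bool)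

theorem sval_primrec : Primrec₂ sval := by
  unfold sval
  refine Primrec.ite ?_ (Primrec.ite ?_ (Primrec.const 0) ?_) ?_
  · exact Primrec.eq.comp (Primrec.fst.comp (Primrec.unpair.comp Primrec.fst)) (Primrec.const 0)
  · exact Primrec.eq.comp Primrec.snd (Primrec.const 0)
  · exact (Primrec.list_getD 0).comp
      ((Primrec.ofNat (List ℕ)).comp (Primrec.snd.comp (Primrec.unpair.comp Primrec.fst))) Primrec.snd
  · exact Primrec.fst.comp (Primrec.unpair.comp Primrec.fst)

theorem scost_primrec : Primrec₂ scost := by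
  unfold scost
  refine Primrec.ite ?_ (Primrec.const 0) (Primrec.ite ?_ (Primrec.const 1) (Primrec.const 0))
  · exact Primrec.eq.comp (Primrec.fst.comp (Primrec.unpair.comp Primrec.fst)) (Primrec.const 0)
  · refine Primrec.eq.comp (Primrec.option_isSome.comp ?_) (Primrec.const true)
    exact Nat.Partrec.Code.primrec_evaln.comp (Primrec.pair (Primrec.pair Primrec.snd
      ((Primrec.ofNat Code).comp (Primrec.pred.comp (Primrec.fst.comp (Primrec.unpair.comp Primrec.fst)))))
      (Primrec.const 0))

theorem val_primrec : Primrec fun p : ℕ × ℕ × ℕ => val p.1 p.2.1 p.2.2 := by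
  unfold val
  refine Primrec.cond (Primrec.nat_bodd.comp Primrec.fst) (Primrec.ite ?_ ?_ (Primrec.const none)) ?_
  · exact Primrec.nat_le.comp (scost_primrec.comp (Primrec.nat_div2.comp Primrec.fst)
      (Primrec.snd.comp Primrec.snd)) (Primrec.fst.comp Primrec.snd)
  · exact Primrec.option_some.comp (sval_primrec.comp (Primrec.nat_div2.comp Primrec.fst)
      (Primrec.snd.comp Primrec.snd))
  · exact Nat.Partrec.Code.primrec_evaln.comp (Primrec.pair (Primrec.pair
      (Primrec.fst.comp Primrec.snd) ((Primrec.ofNat Code).comp (Primrec.nat_div2.comp Primrec.fst)))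
      (Primrec.snd.comp Primrec.snd))


theorem val_mono {j b b' y v : ℕ} (h : b ≤ b') (hv : v ∈ val j b y) : v ∈ val j b' y := by
  unfold val at *
  cases hj : j.bodd
  · simp only [hj, cond_false] at *
    exact Nat.Partrec.Code.evaln_mono h hv
  · simp only [hj, cond_true] at *
    split_ifs at hv with h1
    · rw [if_pos (h1.trans h)]; exact hv
    · simp at hv

theorem mem_num {j y v : ℕ} : v ∈ num j y ↔ ∃ b, v ∈ val j b y :=
  Nat.rfindOpt_mono fun h hv => val_mono h hv

theorem val_isSome_mono {j b b' y : ℕ} (h : b ≤ b') (hv : (val j b y).isSome = true) :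
    (val j b' y).isSome = true := by
  obtain ⟨v, hv⟩ := Option.isSome_iff_exists.1 hv
  exact Option.isSome_iff_exists.2 ⟨v, val_mono h hv⟩

theorem mem_cost {j y c : ℕ} :
    c ∈ cost j y ↔ (val j c y).isSome = true ∧ ∀ k < c, (val j k y).isSome = false := by
  unfold cost
  rw [Nat.mem_rfind]
  simp only [PFun.coe_val, Part.mem_some_iff]
  exact ⟨fun h => ⟨h.1.symm, fun k hk => (h.2 hk).symm⟩, fun h => ⟨h.1.symm, fun {k} hk => (h.2 k hk).symm⟩⟩

theorem exists_cost_le {j y b : ℕ} :
    (∃ c ∈ cost j y, c ≤ b) ↔ (val j b y).isSome = true := by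
  constructor
  · rintro ⟨c, hc, hcb⟩
    exact val_isSome_mono hcb (mem_cost.1 hc).1
  · intro h
    classical
    have hex : ∃ c, (val j c y).isSome = true := ⟨b, h⟩
    refine ⟨Nat.find hex, mem_cost.2 ⟨Nat.find_spec hex, fun k hk => ?_⟩, Nat.find_min' hex h⟩
    simpa using Nat.find_min hex hk

theorem cost_dom_iff (j y : ℕ) : (cost j y).Dom ↔ (num j y).Dom := by
  constructor
  · intro h
    obtain ⟨c, hc⟩ := Part.dom_iff_mem.1 h
    obtain ⟨v, hv⟩ := Option.isSome_iff_exists.1 (mem_cost.1 hc).1
    exact Part.dom_iff_mem.2 ⟨v, mem_num.2 ⟨c, hv⟩⟩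
  · intro h
    obtain ⟨v, hv⟩ := Part.dom_iff_mem.1 h
    obtain ⟨b, hb⟩ := mem_num.1 hv
    obtain ⟨c, hc, -⟩ := exists_cost_le.2 (Option.isSome_iff_exists.2 ⟨v, hb⟩)
    exact Part.dom_iff_mem.2 ⟨c, hc⟩

theorem val_eq_of_mem {j b b' y v v' : ℕ} (h : v ∈ val j b y) (h' : v' ∈ val j b' y) : v = v' :=
  Part.mem_unique (mem_num.2 ⟨b, h⟩) (mem_num.2 ⟨b', h'⟩)

theorem val_computable' : Computable₂ fun (p : ℕ × ℕ) (b : ℕ) => val p.1 b p.2 :=
  (val_primrec.comp (Primrec.pair (Primrec.fst.comp Primrec.fst)
      (Primrec.pair Primrec.snd (Primrec.snd.comp Primrec.fst)))).to_comp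

theorem num_partrec : Partrec₂ num :=
  Partrec.rfindOpt val_computable'

theorem cost_partrec : Partrec₂ cost := by
  have h : Computable₂ fun (p : ℕ × ℕ) (b : ℕ) => (val p.1 b p.2).isSome :=
    (Primrec.option_isSome.to_comp).comp val_computable'
  exact Partrec.rfind h.partrec₂

/-- index of ordinary code -/
def idx (c : Code) : ℕ := 2 * Encodable.encode c

theorem num_idx (c : Code) (x : ℕ) : num (idx c) x = eval c x := by
  ext v
  rw [mem_num]
  have h1 : (idx c).bodd = false := by simp [idx]
  have h2 : (idx c).div2 = Encodable.encode c := by simp [idx, Nat.div2_val]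
  simp only [val, h1, h2, cond_false, Denumerable.ofNat_encode]
  exact Nat.Partrec.Code.evaln_complete.symm

theorem exists_idx (ψ : ℕ → ℕ →. ℕ) (h : Partrec₂ ψ) :
    ∃ c : Code, ∀ i, num (idx (Nat.Partrec.Code.curry c i)) = ψ i := by
  have h' : Nat.Partrec fun n => ψ n.unpair.1 n.unpair.2 :=
    Partrec.nat_iff.1 (h.comp (Computable.fst.comp Computable.unpair)
      (Computable.snd.comp Computable.unpair))
  obtain ⟨c, hc⟩ := Nat.Partrec.Code.exists_code.1 h'
  refine ⟨c, fun i => funext fun x => ?_⟩
  rw [num_idx, Nat.Partrec.Code.eval_curry, hc]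
  simp

theorem idx_curry_computable (c : Code) :
    Computable fun i => idx (Nat.Partrec.Code.curry c i) := by
  unfold idx
  exact (Primrec.nat_double.comp (Primrec.encode.comp
    (Nat.Partrec.Code.primrec₂_curry.comp (Primrec.const c) Primrec.id))).to_comp

theorem idx_curry_injective (c : Code) :
    Function.Injective fun i => idx (Nat.Partrec.Code.curry c i) := by
  intro i j hij
  simp only [idx] at hij
  have : Encodable.encode (Nat.Partrec.Code.curry c i) = Encodable.encode (Nat.Partrec.Code.curry c j) := by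
    omega
  exact (Nat.Partrec.Code.curry_inj (Encodable.encode_injective this)).2

theorem num_acceptable : IsAcceptable num where
  universal := num_partrec
  smn ψ hψ := by
    obtain ⟨c, hc⟩ := exists_idx ψ hψ
    exact ⟨_, idx_curry_computable c, hc⟩

theorem cost_graph : ComputablePred fun p : ℕ × ℕ × ℕ => p.2.2 ∈ cost p.1 p.2.1 := by
  have hv : Primrec fun p : ℕ × ℕ × ℕ => (val p.1 p.2.2 p.2.1).isSome :=
    Primrec.option_isSome.comp (val_primrec.comp (Primrec.pair Primrec.fst
      (Primrec.pair (Primrec.snd.comp Primrec.snd) (Primrec.fst.comp Primrec.snd))))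
  have hv' : Primrec fun p : ℕ × ℕ × ℕ => (val p.1 (p.2.2 - 1) p.2.1).isSome :=
    Primrec.option_isSome.comp (val_primrec.comp (Primrec.pair Primrec.fst
      (Primrec.pair (Primrec.pred.comp (Primrec.snd.comp Primrec.snd)) (Primrec.fst.comp Primrec.snd))))
  have hz : PrimrecPred fun p : ℕ × ℕ × ℕ => p.2.2 = 0 :=
    Primrec.eq.comp (Primrec.snd.comp Primrec.snd) (Primrec.const 0)
  have h1 : PrimrecPred fun p : ℕ × ℕ × ℕ => (val p.1 p.2.2 p.2.1).isSome = true :=
    Primrec.eq.comp hv (Primrec.const true)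
  have h2 : PrimrecPred fun p : ℕ × ℕ × ℕ => (val p.1 (p.2.2 - 1) p.2.1).isSome = false :=
    Primrec.eq.comp hv' (Primrec.const false)
  refine ComputablePred.of_eq ((h1.and (hz.or h2)).computablePred) ?_
  rintro ⟨j, y, c⟩
  simp only
  rw [mem_cost]
  constructor
  · rintro ⟨h, h'⟩
    refine ⟨h, fun k hk => ?_⟩
    rcases h' with h' | h'
    · omega
    · by_contra hne
      have : (val j k y).isSome = true := by
        cases hh : (val j k y).isSome
        · exact absurd hh hne
        · rfl
      have := val_isSome_mono (show k ≤ c - 1 by omega) this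
      rw [this] at h'
      exact absurd h' (by simp)
  · rintro ⟨h, h'⟩
    refine ⟨h, ?_⟩
    rcases Nat.eq_zero_or_pos c with hc | hc
    · exact Or.inl hc
    · exact Or.inr (h' _ (by omega))

theorem isBlumMeasure : IsBlumMeasure num cost where
  acceptable := num_acceptable
  partrec i := cost_partrec.comp (Computable.const i) Computable.id
  dom_iff := cost_dom_iff
  graph := cost_graph


/-! ### The reduction -/

/-- bound on the cost allowed to the candidate `c = (j, (n, s))` at argument `y` -/
def bd (t : ℕ → ℕ) (c y : ℕ) : ℕ :=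
  if y < c.unpair.2.unpair.1 then c.unpair.2.unpair.2 else t y

/-- local test: candidate `c` is refuted at argument `y` by stage `x`, as a program for `φ_i` -/
def bad1 (t : ℕ → ℕ) (i x c y : ℕ) : Bool :=
  (val c.unpair.1 (bd t c y) y).isNone ||
    ((val i x y).isSome && !(decide (val i x y = val c.unpair.1 (bd t c y) y)))

/-- candidate `c` is refuted by stage `x` -/
def bad (t : ℕ → ℕ) (i x c : ℕ) : Bool :=
  Nat.rec (motive := fun _ => Bool) false (fun y b => b || bad1 t i x c y) (x + 1)

/-- minimum of `x` and of the least candidate not refuted by stage `x` -/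
def ptr (t : ℕ → ℕ) (i x : ℕ) : ℕ :=
  Nat.rec (motive := fun _ => ℕ) 0 (fun c acc => if acc = c ∧ bad t i x c = true then c + 1 else acc) x

/-- an upper bound for all values at `x` of programs `j < x` of cost at most `t x` -/
def ub (t : ℕ → ℕ) (x : ℕ) : ℕ :=
  Nat.rec (motive := fun _ => ℕ) 1 (fun j acc => acc + (val j (t x) x).getD 0) x

/-- the total function used in the reduction -/
def red (t₁ t₂ : ℕ → ℕ) (i x : ℕ) : ℕ :=
  if x = 0 then 0 else if ptr t₁ i x = ptr t₁ i (x - 1) then 0 else ub t₂ x

theorem bad_iff {t : ℕ → ℕ} {i x c : ℕ} :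
    bad t i x c = true ↔ ∃ y ≤ x, bad1 t i x c y = true := by
  have key : ∀ n, (Nat.rec (motive := fun _ => Bool) false (fun y b => b || bad1 t i x c y) n = true) ↔
      ∃ y < n, bad1 t i x c y = true := by
    intro n
    induction n with
    | zero => simp
    | succ n ih =>
      simp only [Bool.or_eq_true, ih]
      constructor
      · rintro (⟨y, hy, h⟩ | h)
        · exact ⟨y, by omega, h⟩
        · exact ⟨n, by omega, h⟩
      · rintro ⟨y, hy, h⟩
        rcases Nat.lt_succ_iff_lt_or_eq.1 hy with h1 | h1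
        · exact Or.inl ⟨y, h1, h⟩
        · exact Or.inr (h1 ▸ h)
  refine (key (x + 1)).trans ?_
  simp

theorem ptr_spec (t : ℕ → ℕ) (i x : ℕ) :
    (∀ c < ptr t i x, bad t i x c = true) ∧ ptr t i x ≤ x ∧
      (ptr t i x < x → bad t i x (ptr t i x) = false) := by
  have key : ∀ n, let p := (Nat.rec (motive := fun _ => ℕ) 0
      (fun c acc => if acc = c ∧ bad t i x c = true then c + 1 else acc) n : ℕ)
      (∀ c < p, bad t i x c = true) ∧ p ≤ n ∧ (p < n → bad t i x p = false) := by
    intro n
    induction n with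
    | zero => simp
    | succ n ih =>
      simp only at ih ⊢
      set p := (Nat.rec (motive := fun _ => ℕ) 0
        (fun c acc => if acc = c ∧ bad t i x c = true then c + 1 else acc) n : ℕ) with hp
      obtain ⟨h1, h2, h3⟩ := ih
      split_ifs with h
      · obtain ⟨h4, h5⟩ := h
        refine ⟨fun c hc => ?_, le_rfl, fun h => absurd h (lt_irrefl _)⟩
        rcases Nat.lt_succ_iff_lt_or_eq.1 hc with h6 | h6
        · exact h1 c (h4 ▸ h6)
        · exact h6 ▸ h5
      · refine ⟨h1, by omega, fun _ => ?_⟩
        rcases lt_or_eq_of_le h2 with h4 | h4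
        · exact h3 h4
        · rw [← h4] at h
          by_contra h5
          exact h ⟨rfl, by simpa using h5⟩
  exact key x

theorem bad1_mono {t : ℕ → ℕ} {i x x' c y : ℕ} (h : x ≤ x') (hb : bad1 t i x c y = true) :
    bad1 t i x' c y = true := by
  unfold bad1 at *
  simp only [Bool.or_eq_true, Bool.and_eq_true, Bool.not_eq_true', decide_eq_false_iff_not] at *
  rcases hb with hb | ⟨hb, hb'⟩
  · exact Or.inl hb
  · right
    obtain ⟨v, hv⟩ := Option.isSome_iff_exists.1 hb
    have hv' : val i x' y = some v := val_mono h hv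
    rw [hv'] 
    rw [hv] at hb'
    exact ⟨rfl, hb'⟩

theorem bad_mono {t : ℕ → ℕ} {i x x' c : ℕ} (h : x ≤ x') (hb : bad t i x c = true) :
    bad t i x' c = true := by
  rw [bad_iff] at *
  obtain ⟨y, hy, hb⟩ := hb
  exact ⟨y, hy.trans h, bad1_mono h hb⟩

theorem ptr_mono {t : ℕ → ℕ} {i x x' : ℕ} (h : x ≤ x') : ptr t i x ≤ ptr t i x' := by
  by_contra hlt
  rw [not_le] at hlt
  obtain ⟨h1, h2, -⟩ := ptr_spec t i x
  obtain ⟨-, -, h3⟩ := ptr_spec t i x'
  have h4 := h3 (by omega)
  have h5 := bad_mono h (h1 _ hlt)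
  rw [h4] at h5
  exact absurd h5 (by simp)

theorem lt_ub {t : ℕ → ℕ} {x j v : ℕ} (hj : j < x) (hv : v ∈ val j (t x) x) : v < ub t x := by
  have key : ∀ n, j < n → v < (Nat.rec (motive := fun _ => ℕ) 1
      (fun j acc => acc + (val j (t x) x).getD 0) n : ℕ) := by
    intro n
    induction n with
    | zero => simp
    | succ n ih =>
      intro h
      simp only
      have hpos : ∀ m : ℕ, 0 < (Nat.rec (motive := fun _ => ℕ) 1
        (fun j acc => acc + (val j (t x) x).getD 0) m : ℕ) := by
        intro m
        induction m with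
        | zero => simp
        | succ m ihm => simp only; omega
      rcases Nat.lt_succ_iff_lt_or_eq.1 h with h1 | h1
      · have := ih h1
        omega
      · subst h1
        have : val j (t x) x = some v := hv
        rw [this]
        have := hpos j
        simp only [Option.getD_some]
        omega
  exact key x hj


theorem exists_not_bad_iff {t : ℕ → ℕ} {i : ℕ} (htot : ∀ x, (num i x).Dom) :
    num i ∈ complexityClass num cost t ↔ ∃ c, ∀ x, bad t i x c = false := by
  constructor
  · rintro ⟨j, hj, -, hcost⟩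
    obtain ⟨n, hn⟩ := eventually_atTop.1 hcost
    have hall : ∀ y, ∃ s, (val j s y).isSome = true := by
      intro y
      have h1 : (num j y).Dom := by rw [hj]; exact htot y
      obtain ⟨v, hv⟩ := Part.dom_iff_mem.1 h1
      obtain ⟨b, hb⟩ := mem_num.1 hv
      exact ⟨b, Option.isSome_iff_exists.2 ⟨v, hb⟩⟩
    choose s hs using hall
    obtain ⟨S, hS⟩ : ∃ S, ∀ y < n, s y ≤ S :=
      ⟨(Finset.range n).sup s, fun y hy => Finset.le_sup (f := s) (Finset.mem_range.2 hy)⟩
    refine ⟨Nat.pair j (Nat.pair n S), fun x => ?_⟩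
    by_contra hb
    have hb' : bad t i x (Nat.pair j (Nat.pair n S)) = true := by simpa using hb
    obtain ⟨y, -, hy⟩ := bad_iff.1 hb'
    have hsome : (val j (bd t (Nat.pair j (Nat.pair n S)) y) y).isSome = true := by
      unfold bd
      simp only [Nat.unpair_pair]
      split_ifs with h
      · exact val_isSome_mono (hS y h) (hs y)
      · exact exists_cost_le.1 (hn y (by omega))
    obtain ⟨v, hv⟩ := Option.isSome_iff_exists.1 hsome
    unfold bad1 at hy
    simp only [Nat.unpair_pair, hv, Option.isNone_some, Bool.false_or, Bool.and_eq_true,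
      Bool.not_eq_true', decide_eq_false_iff_not] at hy
    obtain ⟨h1, h2⟩ := hy
    obtain ⟨v', hv'⟩ := Option.isSome_iff_exists.1 h1
    have h3 : v' ∈ num i y := mem_num.2 ⟨x, hv'⟩
    have h4 : v ∈ num i y := by
      rw [← hj]
      exact mem_num.2 ⟨_, hv⟩
    rw [hv', Part.mem_unique h3 h4] at h2
    exact h2 rfl
  · rintro ⟨c, hc⟩
    have hc1 : ∀ x y, y ≤ x → bad1 t i x c y = false := by
      intro x y hyx
      by_contra hb
      have hb' : bad1 t i x c y = true := by simpa using hb
      have := bad_iff.2 ⟨y, hyx, hb'⟩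
      rw [hc x] at this
      exact absurd this (by simp)
    have hval : ∀ y, ∃ v, v ∈ num i y ∧ v ∈ val c.unpair.1 (bd t c y) y := by
      intro y
      obtain ⟨v, hv⟩ := Part.dom_iff_mem.1 (htot y)
      obtain ⟨b, hb⟩ := mem_num.1 hv
      have h1 := hc1 (max b y) y (le_max_right _ _)
      have h2 : val i (max b y) y = some v := val_mono (le_max_left _ _) hb
      unfold bad1 at h1
      rw [h2] at h1
      simp only [Bool.or_eq_false_iff, Option.isSome_some, Bool.true_and, Bool.not_eq_false',
        decide_eq_true_eq] at h1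
      exact ⟨v, hv, h1.2.symm⟩
    refine ⟨c.unpair.1, funext fun y => ?_, htot, ?_⟩
    · obtain ⟨v, hv, hv'⟩ := hval y
      rw [Part.eq_some_iff.2 hv, Part.eq_some_iff.2 (mem_num.2 ⟨_, hv'⟩)]
    · refine eventually_atTop.2 ⟨c.unpair.2.unpair.1, fun y hy => ?_⟩
      obtain ⟨v, -, hv'⟩ := hval y
      refine exists_cost_le.2 ?_
      unfold bd at hv'
      rw [if_neg (by omega)] at hv'
      exact Option.isSome_iff_exists.2 ⟨v, hv'⟩

theorem ptr_eventually_const {t : ℕ → ℕ} {i c : ℕ} (hc : ∀ x, bad t i x c = false) :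
    ∃ N, ∀ x, N ≤ x → ptr t i x = ptr t i N := by
  have hle : ∀ x, ptr t i x ≤ c := by
    intro x
    by_contra h
    rw [not_le] at h
    have := (ptr_spec t i x).1 c h
    rw [hc x] at this
    exact absurd this (by simp)
  have hb : BddAbove (Set.range (ptr t i)) := ⟨c, by rintro _ ⟨x, rfl⟩; exact hle x⟩
  obtain ⟨N, hN⟩ := Nat.sSup_mem (Set.range_nonempty (ptr t i)) hb
  refine ⟨N, fun x hx => le_antisymm ?_ (ptr_mono hx)⟩
  rw [hN]
  exact le_csSup hb ⟨x, rfl⟩

theorem ptr_infinitely_often {t : ℕ → ℕ} {i : ℕ} (h : ∀ c, ∃ x, bad t i x c = true) (N : ℕ) :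
    ∃ x, N < x ∧ ptr t i x ≠ ptr t i (x - 1) := by
  by_contra hcon
  push Not at hcon
  have hconst : ∀ x, N ≤ x → ptr t i x = ptr t i N := by
    intro x hx
    induction x, hx using Nat.le_induction with
    | base => rfl
    | succ x hx ih =>
      rw [hcon (x + 1) (by omega)]
      simpa using ih
  obtain ⟨x0, hx0⟩ := h (ptr t i N)
  set x := max x0 (max N (ptr t i N + 1)) with hx
  have h1 : ptr t i x = ptr t i N := hconst x (by omega)
  have h2 := (ptr_spec t i x).2.2 (by omega)
  rw [h1, bad_mono (show x0 ≤ x by omega) hx0] at h2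
  exact absurd h2 (by simp)

/-- index of a finitely supported function vanishing at `0` with cost `0`. -/
theorem exists_table {f : ℕ → ℕ} (h0 : f 0 = 0) {N : ℕ} (hN : ∀ x, N ≤ x → f x = 0) :
    ∃ j, ∀ x, val j 0 x = some (f x) := by
  refine ⟨2 * Nat.pair 0 (Encodable.encode ((List.range N).map f)) + 1, fun x => ?_⟩
  have h1 : (2 * Nat.pair 0 (Encodable.encode ((List.range N).map f)) + 1).bodd = true := by simp
  have h2 : (2 * Nat.pair 0 (Encodable.encode ((List.range N).map f)) + 1).div2 =
      Nat.pair 0 (Encodable.encode ((List.range N).map f)) := by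
    rw [Nat.div2_val]; omega
  unfold val
  rw [h1, h2]
  simp only [cond_true, scost, sval, Nat.unpair_pair, if_true, le_refl, Denumerable.ofNat_encode,
    Option.some.injEq]
  split_ifs with hx
  · rw [hx, h0]
  · by_cases hxN : x < N
    · rw [List.getD_eq_getElem _ _ (by simpa using hxN)]
      simp
    · rw [List.getD_eq_default _ _ (by simpa using hxN), hN x (by omega)]

theorem table_mem {f : ℕ → ℕ} (h0 : f 0 = 0) {N : ℕ} (hN : ∀ x, N ≤ x → f x = 0) (t : ℕ → ℕ) :
    (fun x => Part.some (f x) : ℕ →. ℕ) ∈ complexityClass num cost t := by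
  obtain ⟨j, hj⟩ := exists_table h0 hN
  refine ⟨j, funext fun x => ?_, fun x => trivial, Eventually.of_forall fun x => ?_⟩
  · exact Part.eq_some_iff.2 (mem_num.2 ⟨0, hj x⟩)
  · exact exists_cost_le.2 (val_isSome_mono (Nat.zero_le _) (by rw [hj x]; rfl))


/-! ### Computability of the reduction -/

theorem comp_ite {α σ : Type} [Primcodable α] [Primcodable σ] {c : α → Prop} [DecidablePred c]
    {f g : α → σ} (hc : Computable fun a => decide (c a)) (hf : Computable f) (hg : Computable g) :
    Computable fun a => if c a then f a else g a :=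
  (Computable.cond hc hf hg).of_eq fun a => by
    by_cases h : c a <;> simp [h]

theorem comp_eq {α : Type} [Primcodable α] {f g : α → ℕ} (hf : Computable f)
    (hg : Computable g) : Computable fun a => decide (f a = g a) := by
  have : Computable fun r : ℕ × ℕ => decide (r.1 = r.2) :=
    (Primrec.eq.comp Primrec.fst Primrec.snd).decide.to_comp
  exact this.comp (Computable.pair hf hg)

theorem comp_and {α : Type} [Primcodable α] {f g : α → Bool} (hf : Computable f)
    (hg : Computable g) : Computable fun a => (f a && g a) := by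
  have : Computable fun r : Bool × Bool => (r.1 && r.2) :=
    (Primrec.and.comp Primrec.fst Primrec.snd).to_comp
  exact this.comp (Computable.pair hf hg)

theorem bd_computable {t : ℕ → ℕ} (ht : Computable t) :
    Computable₂ fun c y : ℕ => bd t c y := by
  unfold bd
  refine comp_ite ?_ ?_ (ht.comp Computable.snd)
  · exact (Primrec.nat_lt.comp Primrec.snd (Primrec.fst.comp (Primrec.unpair.comp
      (Primrec.snd.comp (Primrec.unpair.comp Primrec.fst))))).decide.to_comp
  · exact (Primrec.snd.comp (Primrec.unpair.comp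
      (Primrec.snd.comp (Primrec.unpair.comp Primrec.fst)))).to_comp

theorem val_comp {α : Type} [Primcodable α] {f g h : α → ℕ} (hf : Computable f)
    (hg : Computable g) (hh : Computable h) : Computable fun a => val (f a) (g a) (h a) :=
  val_primrec.to_comp.comp (Computable.pair hf (Computable.pair hg hh))

theorem bad1_comp {t : ℕ → ℕ} (ht : Computable t) :
    Computable fun q : (ℕ × ℕ × ℕ) × ℕ => bad1 t q.1.1 q.1.2.1 q.1.2.2 q.2 := by
  have hi : Computable fun q : (ℕ × ℕ × ℕ) × ℕ => q.1.1 := Computable.fst.comp Computable.fst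
  have hx : Computable fun q : (ℕ × ℕ × ℕ) × ℕ => q.1.2.1 :=
    Computable.fst.comp (Computable.snd.comp Computable.fst)
  have hc : Computable fun q : (ℕ × ℕ × ℕ) × ℕ => q.1.2.2 :=
    Computable.snd.comp (Computable.snd.comp Computable.fst)
  have hy : Computable fun q : (ℕ × ℕ × ℕ) × ℕ => q.2 := Computable.snd
  have h1 : Computable fun q : (ℕ × ℕ × ℕ) × ℕ =>
      val q.1.2.2.unpair.1 (bd t q.1.2.2 q.2) q.2 :=
    val_comp (Computable.fst.comp (Computable.unpair.comp hc)) ((bd_computable ht).comp hc hy) hy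
  have h2 : Computable fun q : (ℕ × ℕ × ℕ) × ℕ => val q.1.1 q.1.2.1 q.2 := val_comp hi hx hy
  have hnone : Computable fun q : (ℕ × ℕ × ℕ) × ℕ =>
      (val q.1.2.2.unpair.1 (bd t q.1.2.2 q.2) q.2).isNone :=
    ((Primrec.not.comp Primrec.option_isSome).to_comp.comp h1).of_eq fun q => by
      simp
  have hsome : Computable fun q : (ℕ × ℕ × ℕ) × ℕ => (val q.1.1 q.1.2.1 q.2).isSome :=
    Primrec.option_isSome.to_comp.comp h2
  have heq : Computable fun q : (ℕ × ℕ × ℕ) × ℕ =>
      decide (val q.1.1 q.1.2.1 q.2 = val q.1.2.2.unpair.1 (bd t q.1.2.2 q.2) q.2) := by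
    have : Computable fun r : Option ℕ × Option ℕ => decide (r.1 = r.2) :=
      (Primrec.eq.comp Primrec.fst Primrec.snd).decide.to_comp
    exact this.comp (Computable.pair h2 h1)
  exact (Primrec.or.to_comp).comp hnone ((Primrec.and.to_comp).comp hsome (Primrec.not.to_comp.comp heq))

theorem comp_or {α : Type} [Primcodable α] {f g : α → Bool} (hf : Computable f)
    (hg : Computable g) : Computable fun a => (f a || g a) := by
  have : Computable fun r : Bool × Bool => (r.1 || r.2) :=
    (Primrec.or.comp Primrec.fst Primrec.snd).to_comp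
  exact this.comp (Computable.pair hf hg)

theorem bad_step_comp {t : ℕ → ℕ} (ht : Computable t) :
    Computable fun s : (ℕ × ℕ × ℕ) × ℕ × Bool =>
      (s.2.2 || bad1 t s.1.1 s.1.2.1 s.1.2.2 s.2.1) := by
  have h1 : Computable fun s : (ℕ × ℕ × ℕ) × ℕ × Bool => ((s.1, s.2.1) : (ℕ × ℕ × ℕ) × ℕ) :=
    Computable.pair Computable.fst (Computable.fst.comp Computable.snd)
  have h2 := (bad1_comp ht).comp h1
  exact comp_or (Computable.snd.comp Computable.snd) h2

theorem bad_comp {t : ℕ → ℕ} (ht : Computable t) :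
    Computable fun q : ℕ × ℕ × ℕ => bad t q.1 q.2.1 q.2.2 := by
  have h0 : Computable fun q : ℕ × ℕ × ℕ => q.2.1 + 1 :=
    Computable.succ.comp (Computable.fst.comp Computable.snd)
  have hstep : Computable₂ fun (q : ℕ × ℕ × ℕ) (r : ℕ × Bool) =>
      (r.2 || bad1 t q.1 q.2.1 q.2.2 r.1) := bad_step_comp ht
  exact (Computable.nat_rec h0 (Computable.const false) hstep).of_eq fun q => rfl

theorem bad_comp' {t : ℕ → ℕ} (ht : Computable t) {α : Type} [Primcodable α] {f g h : α → ℕ} (hf : Computable f)
    (hg : Computable g) (hh : Computable h) : Computable fun a => bad t (f a) (g a) (h a) := by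
  have h := (bad_comp ht).comp (Computable.pair hf (Computable.pair hg hh))
  exact h

theorem ptr_step_comp {t : ℕ → ℕ} (ht : Computable t) :
    Computable fun s : (ℕ × ℕ) × ℕ × ℕ =>
      (if s.2.2 = s.2.1 ∧ bad t s.1.1 s.1.2 s.2.1 = true then s.2.1 + 1 else s.2.2) := by
  have hr1 : Computable fun s : (ℕ × ℕ) × ℕ × ℕ => s.2.1 := Computable.fst.comp Computable.snd
  have hr2 : Computable fun s : (ℕ × ℕ) × ℕ × ℕ => s.2.2 := Computable.snd.comp Computable.snd
  have hq1 : Computable fun s : (ℕ × ℕ) × ℕ × ℕ => s.1.1 := Computable.fst.comp Computable.fst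
  have hq2 : Computable fun s : (ℕ × ℕ) × ℕ × ℕ => s.1.2 := Computable.snd.comp Computable.fst
  have hb : Computable fun s : (ℕ × ℕ) × ℕ × ℕ => bad t s.1.1 s.1.2 s.2.1 :=
    bad_comp' ht hq1 hq2 hr1
  have hand0 := comp_and (comp_eq hr2 hr1) hb
  have hand : Computable fun s : (ℕ × ℕ) × ℕ × ℕ =>
      decide (s.2.2 = s.2.1 ∧ bad t s.1.1 s.1.2 s.2.1 = true) :=
    hand0.of_eq fun s => by
      simp [Bool.decide_and]
  exact comp_ite hand (Computable.succ.comp hr1) hr2

theorem ptr_comp {t : ℕ → ℕ} (ht : Computable t) :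
    Computable₂ fun i x : ℕ => ptr t i x := by
  have hstep : Computable₂ fun (q : ℕ × ℕ) (r : ℕ × ℕ) =>
      (if r.2 = r.1 ∧ bad t q.1 q.2 r.1 = true then r.1 + 1 else r.2) :=
    ptr_step_comp ht
  exact (Computable.nat_rec Computable.snd (Computable.const 0) hstep).of_eq fun q => rfl

theorem ub_comp {t : ℕ → ℕ} (ht : Computable t) : Computable (ub t) := by
  have hstep : Computable₂ fun (x : ℕ) (r : ℕ × ℕ) => r.2 + (val r.1 (t x) x).getD 0 :=
    (Primrec.nat_add.to_comp).comp (Computable.snd.comp Computable.snd)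
      (((Primrec.option_getD (α := ℕ)).to_comp).comp (val_comp (Computable.fst.comp Computable.snd)
        (ht.comp Computable.fst) Computable.fst) (Computable.const 0))
  exact (Computable.nat_rec Computable.id (Computable.const 1) hstep).of_eq fun q => rfl

theorem red_comp {t₁ t₂ : ℕ → ℕ} (h₁ : Computable t₁) (h₂ : Computable t₂) :
    Computable₂ fun i x : ℕ => red t₁ t₂ i x := by
  have hp : Computable fun q : ℕ × ℕ => ptr t₁ q.1 q.2 := ptr_comp h₁
  have hp' : Computable fun q : ℕ × ℕ => ptr t₁ q.1 (q.2 - 1) :=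
    (ptr_comp h₁).comp Computable.fst (Computable.pred.comp Computable.snd)
  have heq : Computable fun q : ℕ × ℕ => decide (ptr t₁ q.1 q.2 = ptr t₁ q.1 (q.2 - 1)) :=
    comp_eq hp hp'
  exact comp_ite (comp_eq Computable.snd (Computable.const 0))
    (Computable.const 0) (comp_ite heq (Computable.const 0) ((ub_comp h₂).comp Computable.snd))

theorem reducible {t₁ t₂ : ℕ → ℕ} (h₁ : Computable t₁) (h₂ : Computable t₂) :
    OneOneReducible (fun i => i ∈ indexSet num cost t₁) (fun i => i ∈ indexSet num cost t₂) := by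
  have hψ : Partrec₂ fun i : ℕ => ((fun x => (num i x).map fun _ => red t₁ t₂ i x) : ℕ →. ℕ) :=
    Partrec.map num_partrec ((red_comp h₁ h₂).comp (Computable.fst.comp Computable.fst)
      (Computable.snd.comp Computable.fst))
  obtain ⟨c, hc⟩ := exists_idx _ hψ
  refine ⟨_, idx_curry_computable c, idx_curry_injective c, fun i => ?_⟩
  show num i ∈ complexityClass num cost t₁ ↔
    num (idx (Nat.Partrec.Code.curry c i)) ∈ complexityClass num cost t₂
  rw [hc i]
  have hdom : ∀ x, (num i x).Dom → (num i x).map (fun _ => red t₁ t₂ i x) = Part.some (red t₁ t₂ i x) := by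
    intro x hx
    obtain ⟨v, hv⟩ := Part.dom_iff_mem.1 hx
    rw [Part.eq_some_iff.2 hv, Part.map_some]
  constructor
  · intro h
    have htot : ∀ x, (num i x).Dom := by
      obtain ⟨j, -, h, -⟩ := h
      exact h
    obtain ⟨c', hc'⟩ := (exists_not_bad_iff htot).1 h
    obtain ⟨N, hN⟩ := ptr_eventually_const hc'
    have : ((fun x => (num i x).map fun _ => red t₁ t₂ i x) : ℕ →. ℕ) =
        (fun x => Part.some (red t₁ t₂ i x)) := funext fun x => hdom x (htot x)
    rw [this]
    refine table_mem (f := red t₁ t₂ i) (by simp [red]) (N := N + 1) (fun x hx => ?_) t₂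
    unfold red
    rw [if_neg (by omega), if_pos (by rw [hN x (by omega), hN (x - 1) (by omega)])]
  · intro h
    obtain ⟨j, hj, htot', hcost⟩ := h
    have htot : ∀ x, (num i x).Dom := fun x => htot' x
    rw [exists_not_bad_iff htot]
    by_contra hcon
    push Not at hcon
    have hcon' : ∀ c, ∃ x, bad t₁ i x c = true := fun c => by
      obtain ⟨x, hx⟩ := hcon c
      exact ⟨x, by simpa using hx⟩
    obtain ⟨N, hN⟩ := eventually_atTop.1 hcost
    obtain ⟨x, hx, hne⟩ := ptr_infinitely_often hcon' (max N j)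
    have h3 := exists_cost_le.1 (hN x (by omega))
    obtain ⟨v, hv⟩ := Option.isSome_iff_exists.1 h3
    have h4 : v < ub t₂ x := lt_ub (by omega) hv
    have h5 : v ∈ num j x := mem_num.2 ⟨_, hv⟩
    rw [hj] at h5
    have h5' : v ∈ (num i x).map fun _ => red t₁ t₂ i x := h5
    rw [hdom x (htot x), Part.mem_some_iff] at h5'
    clear h5
    rename' h5' => h5
    unfold red at h5
    rw [if_neg (by omega), if_neg hne] at h5
    omega

theorem isConform : IsConform num cost :=
  fun _ _ h₁ h₂ _ _ => ⟨reducible h₁ h₂, reducible h₂ h₁⟩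

/-! ### The class `Φ(0)` is not r.e. -/

theorem val_zero {j x v : ℕ} (h : v ∈ val j 0 x) :
    j.bodd = true ∧ scost j.div2 x = 0 ∧ v = sval j.div2 x := by
  unfold val at h
  cases hj : j.bodd
  · simp only [hj, cond_false] at h
    exact absurd (Nat.Partrec.Code.evaln_bound h) (by simp)
  · simp only [hj, cond_true] at h
    split_ifs at h with h1
    · exact ⟨rfl, by omega, (Option.some.inj h).symm⟩
    · simp at h

theorem mem_zero_class {f : ℕ →. ℕ} {a : ℕ} (hf : f ∈ complexityClass num cost fun _ => 0)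
    (ha : a + 1 ∈ f 0) : ¬ (eval (Denumerable.ofNat Code a) 0).Dom := by
  obtain ⟨j, hj, htot, hcost⟩ := hf
  obtain ⟨N, hN⟩ := eventually_atTop.1 hcost
  have hz : ∀ x, N ≤ x → ∃ v, v ∈ val j 0 x := fun x hx =>
    Option.isSome_iff_exists.1 (exists_cost_le.1 (hN x hx))
  obtain ⟨v0, hv0⟩ := hz N le_rfl
  obtain ⟨hodd, -, -⟩ := val_zero hv0
  -- the value at `0`
  rw [← hj] at ha
  obtain ⟨b, hb⟩ := mem_num.1 ha
  have hs : a + 1 = sval j.div2 0 := by
    unfold val at hb
    simp only [hodd, cond_true] at hb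
    split_ifs at hb with h1
    · exact (Option.some.inj hb).symm
    · simp at hb
  have hne : j.div2.unpair.1 ≠ 0 := by
    intro h
    rw [sval, if_pos h, if_pos rfl] at hs
    omega
  have ha' : j.div2.unpair.1 = a + 1 := by
    rw [sval, if_neg hne] at hs
    exact hs.symm
  intro hdom
  obtain ⟨w, hw⟩ := Part.dom_iff_mem.1 hdom
  obtain ⟨k, hk⟩ := Nat.Partrec.Code.evaln_complete.1 hw
  obtain ⟨v, hv⟩ := hz (max N k) (le_max_left _ _)
  obtain ⟨-, hc, -⟩ := val_zero hv
  unfold scost at hc
  rw [if_neg hne, ha', Nat.add_sub_cancel] at hc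
  have h6 : w ∈ evaln (max N k) (Denumerable.ofNat Code a) 0 :=
    Nat.Partrec.Code.evaln_mono (le_max_right _ _) hk
  have h7 : (evaln (max N k) (Denumerable.ofNat Code a) 0).isSome = true :=
    Option.isSome_iff_exists.2 ⟨w, h6⟩
  rw [if_pos h7] at hc
  exact absurd hc one_ne_zero

theorem const_mem_zero_class {a : ℕ} (ha : ¬ (eval (Denumerable.ofNat Code a) 0).Dom) :
    (fun _ => Part.some (a + 1) : ℕ →. ℕ) ∈ complexityClass num cost fun _ => 0 := by
  have hval : ∀ x, val (2 * Nat.pair (a + 1) 0 + 1) 0 x = some (a + 1) := by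
    intro x
    have h1 : (2 * Nat.pair (a + 1) 0 + 1).bodd = true := by simp
    have h2 : (2 * Nat.pair (a + 1) 0 + 1).div2 = Nat.pair (a + 1) 0 := by
      rw [Nat.div2_val]; omega
    have h3 : ¬ (evaln x (Denumerable.ofNat Code a) 0).isSome = true := by
      intro h
      obtain ⟨w, hw⟩ := Option.isSome_iff_exists.1 h
      exact ha (Part.dom_iff_mem.2 ⟨w, Nat.Partrec.Code.evaln_sound hw⟩)
    unfold val
    rw [h1, h2]
    simp only [cond_true, scost, sval, Nat.unpair_pair, Nat.succ_ne_zero, if_false,
      Nat.add_sub_cancel, if_neg h3, le_refl, if_true]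
  refine ⟨2 * Nat.pair (a + 1) 0 + 1, funext fun x => ?_, fun x => trivial,
    Eventually.of_forall fun x => ?_⟩
  · exact Part.eq_some_iff.2 (mem_num.2 ⟨0, hval x⟩)
  · exact exists_cost_le.2 (by rw [hval x]; rfl)

theorem not_isRE : ¬ IsRE num (complexityClass num cost fun _ => 0) := by
  rintro (h | ⟨g, hg, h⟩)
  · have := table_mem (f := fun _ => 0) rfl (N := 0) (fun _ _ => rfl) (fun _ => 0)
    rw [h] at this
    exact this
  · refine ComputablePred.halting_problem_not_re 0 ?_
    have htot : ∀ n, (num (g n) 0).Dom := by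
      intro n
      have : num (g n) ∈ complexityClass num cost fun _ => 0 := by
        rw [h]; exact ⟨n, rfl⟩
      obtain ⟨j, -, h, -⟩ := this
      exact h 0
    have hpart : Partrec fun n : ℕ => num (g n) 0 := num_partrec.comp hg (Computable.const 0)
    -- search for `n` with value `encode c + 1`
    have hB : Partrec₂ fun (c : Code) (n : ℕ) =>
        (num (g n) 0).map fun v => decide (v = Encodable.encode c + 1) := by
      have hdec : Computable₂ fun (q : Code × ℕ) (v : ℕ) => decide (v = Encodable.encode q.1 + 1) :=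
        (Primrec.eq.comp Primrec.snd (Primrec.succ.comp (Primrec.encode.comp
          (Primrec.fst.comp Primrec.fst)))).decide.to_comp
      exact Partrec.map (hpart.comp Computable.snd) hdec
    have hR := (Partrec.rfind hB).dom_re
    refine hR.of_eq fun c => ?_
    rw [Nat.rfind_dom]
    constructor
    · rintro ⟨n, hn, -⟩
      obtain ⟨v, hv, hv'⟩ := (Part.mem_map_iff _).1 hn
      have hv1 : v = Encodable.encode c + 1 := by simpa using hv'
      rw [hv1] at hv
      have := mem_zero_class (f := num (g n)) (by rw [h]; exact ⟨n, rfl⟩) hv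
      simpa using this
    · intro hc
      have hmem := const_mem_zero_class (a := Encodable.encode c) (by simpa using hc)
      rw [h] at hmem
      obtain ⟨n, hn⟩ := hmem
      refine ⟨n, ?_, fun {m} _ => htot m⟩
      have hn' : num (g n) 0 = Part.some (Encodable.encode c + 1) := congrFun hn 0
      refine (Part.mem_map_iff _).2 ⟨Encodable.encode c + 1, ?_, by simp⟩
      rw [hn']
      exact Part.mem_some _

/-- There is a conform Blum measure having a complexity class (with a recursive bound) that is not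
recursively enumerable. -/
theorem result : ∃ φ Φ : ℕ → ℕ →. ℕ, IsBlumMeasure φ Φ ∧ IsConform φ Φ ∧
    ∃ t : ℕ → ℕ, Computable t ∧ ¬ IsRE φ (complexityClass φ Φ t) :=
  ⟨num, cost, isBlumMeasure, isConform, fun _ => 0, Computable.const 0, not_isRE⟩

end Pool.Agent.Results.MP_9ab454_lc.ConformNotRE
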